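import Pool.Agent.Q102.CD.Dhj

set_option autoImplicit false

/-!
# Progression-free subsets of `F_p^n` and circuits of constant depth

The circuits read arbitrary tests `x i ∈ S` of single coordinates. Subsets of `F_p^n` without
`k`-term progressions (`k ≤ p`) which are decided by circuits of constant depth with `2 ^ ℓ` nodes
are exponentially small, and *every* set without `k`-term progressions has small relative density in
every set decided by such a circuit which has at least `p ^ n 2 ^ (- c n / loss)` elements.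

Proof. If a point of `A` is moved to an arbitrary place on a line in the direction of a coordinate
axis, then it leaves `A` with positive probability; so the indicator function of `A` is sensitive at
all points of `A`, also after a restriction to a random combinatorial subcube `u + δ {0,1}^n`. On the
subcubes we have circuits with boolean inputs, and there points of large sensitivity are rare. For the
relative version replace the coordinates by blocks of `m` coordinates: most points of `F` stay in `F`
if the coordinates in some block are changed arbitrarily.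
-/

namespace Pool.Agent.Results.MP_b30443_co.ConstantDepthCircuits

open Finset Function
open Pool.Agent Pool.Agent.Q102.CD

/-- `A ⊆ F_p^n` contains no nontrivial `k`-term progression `x, x+y, …, x+(k-1)y` with `y ≠ 0`. -/
def APFree (k p n : ℕ) (A : Finset (Fin n → ZMod p)) : Prop :=
  ∀ x y : Fin n → ZMod p, (∀ i : ℕ, i < k → x + i • y ∈ A) → y = 0

/-- `F ⊆ F_p^n` is decided by a circuit of depth at most `d` with at most `2 ^ ℓ - n` nodes. Its
leaves are arbitrary tests of one coordinate, its gates are AND and OR gates of any number of wires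
and arbitrary gates with at most `w` wires, negations are free. -/
def Decided (w ℓ d : ℕ) {p n : ℕ} (F : Finset (Fin n → ZMod p)) : Prop :=
  ∃ (C : Circuit (ZMod p) w n) (o : C.Node), n + Nat.card C.Node ≤ 2 ^ ℓ ∧
    (∀ v, C.depth v ≤ d) ∧ ∀ x, x ∈ F ↔ C.val o x = true

/-- `loss w ℓ d = (d + 1) (2 ^ (d + 10) w ℓ) ^ (d + 1)` -/
def loss (w ℓ d : ℕ) : ℕ := (d + 1) * (2 ^ (d + 10) * (w * ℓ)) ^ (d + 1)

lemma loss_eq (w ℓ d : ℕ) :
    ((loss w ℓ d : ℕ) : ℝ) = ((d + 1 : ℕ) : ℝ) * Y347.CO.KK (d + 1) w ℓ := by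
  rw [loss, Y347.CO.KK, Nat.cast_mul]

lemma apFree_mono {k p n : ℕ} {A B : Finset (Fin n → ZMod p)} (h : B ⊆ A) (hA : APFree k p n A) :
    APFree k p n B := fun x y hxy => hA x y fun i hi => h (hxy i hi)

lemma glue_add {p n m : ℕ} (hm : 0 < m) (j : ℕ) (z : Fin n → ZMod p) (x y : Fin m → ZMod p)
    (i : ℕ) : glue hm j z (x + i • y) = glue hm j z x + i • glue hm j 0 y := by
  funext s
  unfold glue
  simp only [Pi.add_apply, Pi.smul_apply]
  split_ifs
  · rfl
  · simp

/-- slices of progression-free sets are progression-free -/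
lemma slice_free {k p n m : ℕ} (hm : 0 < m) {j : ℕ} (hj : j < n / m) [NeZero p]
    {A : Finset (Fin n → ZMod p)} (hA : APFree k p n A) (z : Fin n → ZMod p) :
    APFree k p m (univ.filter fun t : Fin m → ZMod p => glue hm j z t ∈ A) := by
  intro x y h
  have h1 := hA (glue hm j z x) (glue hm j 0 y) (fun i hi => by
    rw [← glue_add]
    exact (mem_filter.1 (h i hi)).2)
  funext s
  rw [← glue_pos hm hj 0 y s, h1]
  rfl

/-- progression-free sets contain no lines -/
lemma line_free {k p m : ℕ} [NeZero p] {B : Finset (Fin m → ZMod p)}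
    (hp : 1 < p) (hB : APFree k p m B) : H602R3.DHJ.LFr (B : Set (Fin m → ZMod p)) := by
  classical
  intro V hV
  by_contra hcon
  push Not at hcon
  have h1 := hB (H602R3.DHJ.ap V (fun _ => 0)) (fun s => Sum.elim (fun _ => 0) (fun _ => 1) (V s))
    (fun i _ => by
      have h2 := hcon (i : ZMod p)
      rw [mem_coe] at h2
      have e : H602R3.DHJ.ap V (fun _ => (i : ZMod p)) = H602R3.DHJ.ap V (fun _ => 0) +
          i • (fun s => Sum.elim (fun _ => (0 : ZMod p)) (fun _ => 1) (V s)) := by
        funext s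
        simp only [H602R3.DHJ.ap, Pi.add_apply, Pi.smul_apply]
        rcases V s with a | b
        · simp
        · simp
      rw [← e]
      exact h2)
  obtain ⟨s, hs⟩ := hV ()
  have h2 := congrFun h1 s
  simp only [hs, Sum.elim_inr, Pi.zero_apply] at h2
  have : Fact (1 < p) := ⟨hp⟩
  exact one_ne_zero h2

/-- **Theorem.** Let `p` be a prime, `k` arbitrary (for instance `3 ≤ k ≤ p`), and `w, ℓ ≥ 1`.
(1) If a set `A ⊆ F_p^n` without `k`-term progressions is a union of `T` sets decided by circuits of
depth `d` with `2 ^ ℓ - n` nodes, then `|A| ≤ 4 p T p^n 2^(2 ℓ + 4 - n / (4 p loss))`.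
(2) Let `1 ≤ m ≤ n` and suppose that subsets of `F_p^m` without `k`-term progressions have at most `r`
elements. For every set `F ⊆ F_p^n` decided by such a circuit, every set `A ⊆ F_p^n` without `k`-term
progressions and every `ε > 0`,
`|A ∩ F| ≤ (r / p^m + ε) |F| + 2 m p^n 2^(2 ℓ + 4 - (ε / 2) ⌊n / m⌋ / loss)`.
(3) For every `δ > 0` there is `c > 0` (depending on `p` and `δ`) such that for all `n`, all such `F`
and all `A ⊆ F_p^n` without `k`-term progressions, `|A ∩ F| ≤ δ |F| + p^n 2^(2 ℓ + 1 / c - c n / loss)`. -/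
theorem result (p k : ℕ) [hp : Fact p.Prime] :
    (∀ n w ℓ d T : ℕ, 1 ≤ w → 1 ≤ ℓ → ∀ (A : Finset (Fin n → ZMod p))
      (F : Fin T → Finset (Fin n → ZMod p)), APFree k p n A → (∀ i, Decided w ℓ d (F i)) →
      (∀ x, x ∈ A ↔ ∃ i, x ∈ F i) →
      (A.card : ℝ) ≤ 4 * p * T * (p : ℝ) ^ n *
        (2 : ℝ) ^ (2 * ℓ + 4 - n / (4 * p * loss w ℓ d) : ℝ)) ∧
    (∀ n m w ℓ d r : ℕ, 1 ≤ w → 1 ≤ ℓ → 1 ≤ m → m ≤ n →
      (∀ B : Finset (Fin m → ZMod p), APFree k p m B → B.card ≤ r) →
      ∀ F A : Finset (Fin n → ZMod p), Decided w ℓ d F → APFree k p n A →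
      ∀ ε : ℝ, 0 < ε → ((A ∩ F).card : ℝ) ≤ (r / (p : ℝ) ^ m + ε) * F.card +
        2 * m * ((p : ℝ) ^ n * (2 : ℝ) ^ (2 * ℓ + 4 - ε / 2 * (n / m : ℕ) / loss w ℓ d : ℝ))) ∧
    (∀ δ : ℝ, 0 < δ → ∃ c : ℝ, 0 < c ∧ ∀ n w ℓ d : ℕ, 1 ≤ w → 1 ≤ ℓ →
      ∀ F A : Finset (Fin n → ZMod p), Decided w ℓ d F → APFree k p n A →
      ((A ∩ F).card : ℝ) ≤ δ * F.card +
        (p : ℝ) ^ n * (2 : ℝ) ^ (2 * ℓ + 1 / c - c * n / loss w ℓ d : ℝ)) := by
  classical
  have hp0 : NeZero p := ⟨hp.out.ne_zero⟩
  have hp1 : 1 < p := hp.out.one_lt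
  have hp' : (1 : ℝ) < p := by exact_mod_cast hp1
  refine ⟨?_, ?_, ?_⟩
  · intro n w ℓ d T hw hℓ A F hA hF hun
    have hone : ∀ i, ((F i).card : ℝ) ≤ 4 * p * ((p : ℝ) ^ n *
        (2 : ℝ) ^ (2 * ℓ + 4 - n / (4 * p * loss w ℓ d) : ℝ)) := by
      intro i
      have hFi : APFree k p n (F i) := apFree_mono (fun x hx => (hun x).2 ⟨i, hx⟩) hA
      obtain ⟨C, o, hs, hd, hCF⟩ := hF i
      rcases Nat.eq_zero_or_pos n with hn | hn
      · subst hn
        have h1 : ((F i).card : ℝ) ≤ 1 := by
          have h2 := card_le_univ (F i)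
          rw [Fintype.card_fun, Fintype.card_fin, pow_zero] at h2
          exact_mod_cast h2
        have h3 : (1 : ℝ) ≤ (2 : ℝ) ^ (2 * ℓ + 4 - (0 : ℕ) / (4 * p * loss w ℓ d) : ℝ) := by
          apply Real.one_le_rpow (by norm_num)
          rw [Nat.cast_zero, zero_div, sub_zero]
          positivity
        rw [pow_zero, one_mul]
        nlinarith
      · have h1 := rel_blocks C hw hℓ hs hd o (F i) (F i) hCF (m := 1) one_pos hn
          (θ := ((p : ℝ) - 1) / p) (ε := 1 / (2 * p)) (by positivity) (by
            intro j hj z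
            have h2 := line_free hp1 (slice_free one_pos hj hFi z)
            obtain ⟨a, ha⟩ := h2 (fun _ => Sum.inr ()) (fun _ => ⟨0, rfl⟩)
            have h3 : (univ.filter fun t : Fin 1 → ZMod p => glue one_pos j z t ∈ F i).card <
                (univ : Finset (Fin 1 → ZMod p)).card := by
              apply card_lt_card
              rw [ssubset_univ_iff]
              intro h4
              apply ha
              rw [h4]
              simp
            rw [card_univ, Fintype.card_fun, ZMod.card, Fintype.card_fin, pow_one] at h3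
            have h4 : (univ.filter fun t : Fin 1 → ZMod p => glue one_pos j z t ∈ F i).card + 1 ≤
                p := h3
            have h5 : ((univ.filter fun t : Fin 1 → ZMod p =>
                glue one_pos j z t ∈ F i).card : ℝ) + 1 ≤ p := by exact_mod_cast h4
            rw [pow_one, div_mul_cancel₀ _ (by positivity)]
            linarith)
        rw [inter_self, Nat.div_one] at h1
        have e : (2 : ℝ) * ℓ + 4 - 1 / (2 * p) / 2 * (n : ℕ) /
            (((d + 1 : ℕ) : ℝ) * Y347.CO.KK (d + 1) w ℓ) =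
            2 * ℓ + 4 - n / (4 * p * loss w ℓ d) := by
          rw [loss_eq]
          have hX := one_le_dKK (d := d + 1) (by omega) hw hℓ
          have hX0 : (((d + 1 : ℕ) : ℝ) * Y347.CO.KK (d + 1) w ℓ) ≠ 0 := by
            intro h0
            rw [h0] at hX
            linarith
          field_simp
          ring
        rw [e] at h1
        have hpp : (0 : ℝ) < p := by linarith
        have e2 : ((p : ℝ) - 1) / p + 1 / (2 * p) = 1 - 1 / (2 * p) := by
          field_simp
          ring
        rw [e2] at h1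
        have h2 : 1 / (2 * (p : ℝ)) * (F i).card ≤ 2 * ((p : ℝ) ^ n *
            (2 : ℝ) ^ (2 * ℓ + 4 - n / (4 * p * loss w ℓ d) : ℝ)) := by
          push_cast at h1
          linarith
        have h3 := mul_le_mul_of_nonneg_left h2 (by positivity : (0 : ℝ) ≤ 2 * p)
        have e3 : 2 * (p : ℝ) * (1 / (2 * p) * (F i).card) = (F i).card := by
          field_simp
        rw [e3] at h3
        linarith
    have h2 : A.card ≤ ∑ i, (F i).card := by
      refine (card_le_card (t := univ.biUnion F) fun x hx => ?_).trans card_biUnion_le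
      obtain ⟨i, hi⟩ := (hun x).1 hx
      exact mem_biUnion.2 ⟨i, mem_univ _, hi⟩
    have h3 : (A.card : ℝ) ≤ ∑ i, ((F i).card : ℝ) := by exact_mod_cast h2
    refine h3.trans ((sum_le_sum fun i _ => hone i).trans (le_of_eq ?_))
    rw [sum_const, card_univ, Fintype.card_fin, nsmul_eq_mul]
    ring
  · intro n m w ℓ d r hw hℓ hm hmn hr F A hF hA ε hε
    obtain ⟨C, o, hs, hd, hCF⟩ := hF
    rw [loss_eq]
    refine rel_blocks C hw hℓ hs hd o F A hCF hm hmn hε.le ?_
    intro j hj z
    have h1 := hr _ (slice_free hm hj hA z)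
    have h2 : ((univ.filter fun t : Fin m → ZMod p => glue hm j z t ∈ A).card : ℝ) ≤ r := by
      exact_mod_cast h1
    rwa [div_mul_cancel₀ _ (by positivity)]
  · intro δ hδ
    obtain ⟨m, hm, hdhj⟩ := dhj_small (q := p) (δ := δ / 2) (by positivity)
    obtain ⟨c, hc, h⟩ := rel_c (q := p) hm hδ
    refine ⟨c, hc, fun n w ℓ d hw hℓ F A hF hA => ?_⟩
    obtain ⟨C, o, hs, hd, hCF⟩ := hF
    rw [loss_eq]
    exact h n w ℓ d C hw hℓ hs hd o F A hCF fun j hj z =>
      hdhj _ (line_free hp1 (slice_free hm hj hA z))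

end Pool.Agent.Results.MP_b30443_co.ConstantDepthCircuits
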