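import Pool.Agent.Q123.DHJ.Field

/-!
Problem MP_b30443_co (largest progression-free subsets of `F_p ^ n`): the exact maximum for the
cap sets that are closed under majority operations, for the sets without `p`-term progressions
that are closed under coordinatewise minimum and maximum, and for the cap sets that are closed
under flat semilattice operations.
-/

set_option autoImplicit false

namespace Pool.Agent.Results.MP_b30443_co.MajorityClosed

/-- `A` contains no nontrivial `k`-term progression `x, x + y, ..., x + (k - 1) y`, `y ≠ 0`. -/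
def APFree (k : ℕ) {V : Type} [AddCommGroup V] (A : Finset V) : Prop :=
  ∀ x y : V, (∀ j : ℕ, j < k → x + j • y ∈ A) → y = 0

/-- `m` is a majority operation: if two of the arguments are equal, this is the value. -/
def IsMajority {D : Type} (m : D → D → D → D) : Prop :=
  ∀ x y, m x x y = x ∧ m x y x = x ∧ m y x x = x

/-- the smaller one of `x`, `y ∈ F_p`, ordered by `x ↦ a x + b ∈ {0, 1, ..., p - 1}` -/
def lower {p : ℕ} (a b x y : ZMod p) : ZMod p := if (a * x + b).val ≤ (a * y + b).val then x else y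

/-- the larger one of `x`, `y ∈ F_p`, ordered by `x ↦ a x + b ∈ {0, 1, ..., p - 1}` -/
def upper {p : ℕ} (a b x y : ZMod p) : ZMod p := if (a * x + b).val ≤ (a * y + b).val then y else x

theorem result :
    -- (1) cap sets in `F_3 ^ n` closed under arbitrary majority operations: the maximum is `2 ^ n`
    (∀ (n : ℕ) (m : Fin n → ZMod 3 → ZMod 3 → ZMod 3 → ZMod 3), (∀ i, IsMajority (m i)) →
      IsGreatest {c | ∃ A : Finset (Fin n → ZMod 3), APFree 3 A ∧
        (∀ x ∈ A, ∀ y ∈ A, ∀ z ∈ A, (fun i => m i (x i) (y i) (z i)) ∈ A) ∧ A.card = c}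
        (2 ^ n)) ∧
    -- (2) sets without `p`-term progressions closed under minimum and maximum, `(p - 1) ^ n`
    (∀ (p : ℕ) (_ : p.Prime) (n : ℕ) (a b : Fin n → ZMod p), (∀ i, a i ≠ 0) →
      IsGreatest {c | ∃ A : Finset (Fin n → ZMod p), APFree p A ∧
        (∀ x ∈ A, ∀ y ∈ A, (fun i => lower (a i) (b i) (x i) (y i)) ∈ A ∧
          (fun i => upper (a i) (b i) (x i) (y i)) ∈ A) ∧ A.card = c}
        ((p - 1) ^ n)) ∧
    -- (2') the same for subsets of `{0, ..., k - 1} ^ n` without combinatorial lines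
    (∀ (k n : ℕ) (A : Finset (Fin n → Fin k)),
      (∀ x ∈ A, ∀ y ∈ A, (fun i => min (x i) (y i)) ∈ A ∧ (fun i => max (x i) (y i)) ∈ A) →
      (∀ (I : Finset (Fin n)) (c : Fin n → Fin k), I.Nonempty →
        ¬ ∀ t : Fin k, (fun i => if i ∈ I then t else c i) ∈ A) → A.card ≤ (k - 1) ^ n) ∧
    -- (3) flat semilattices, with the least element `z i` in the `i`-th coordinate
    (∀ (p : ℕ) (_ : p.Prime) (n : ℕ) (z : Fin n → ZMod p) (A : Finset (Fin n → ZMod p)),
      APFree 3 A → (∀ x ∈ A, ∀ y ∈ A, (fun i => if x i = y i then x i else z i) ∈ A) →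
      A.card ≤ (p / 2 + 1) ^ n) ∧
    (∀ (n : ℕ) (z : Fin n → ZMod 3),
      IsGreatest {c | ∃ A : Finset (Fin n → ZMod 3), APFree 3 A ∧
        (∀ x ∈ A, ∀ y ∈ A, (fun i => if x i = y i then x i else z i) ∈ A) ∧ A.card = c}
        (2 ^ n)) := by
  refine ⟨?_, ?_, ?_, ?_, ?_⟩
  · intro n m hm
    constructor
    · obtain ⟨A, h1, h2, h3⟩ := Q123.DHJ.majority_lower hm
      exact ⟨A, h2, h1, h3⟩
    · rintro c ⟨A, h1, h2, rfl⟩
      exact Q123.DHJ.majority_upper hm A h2 h1
  · intro p hp n a b ha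
    have := Fact.mk hp
    constructor
    · obtain ⟨A, h1, h2, h3⟩ := Q123.DHJ.order_lower a b
      exact ⟨A, h2, h1, h3⟩
    · rintro c ⟨A, h1, h2, rfl⟩
      exact Q123.DHJ.order_upper a b ha A h2 h1
  · intro k n A h1 h2
    have := Q123.DHJ.lattice A h1 h2
    rwa [Fintype.card_fin] at this
  · intro p hp n z A h1 h2
    have := Fact.mk hp
    exact Q123.DHJ.flat_upper z A h2 h1
  · intro n z
    have := Fact.mk Nat.prime_three
    constructor
    · obtain ⟨A, h1, h2, h3⟩ := Q123.DHJ.flat_lower z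
      exact ⟨A, h2, h1, h3⟩
    · rintro c ⟨A, h1, h2, rfl⟩
      exact Q123.DHJ.flat_upper z A h2 h1

end Pool.Agent.Results.MP_b30443_co.MajorityClosed
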