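import Pool.Agent.Q93.HP.Main
import Pool.Agent.Q250.VSR.Cap
import Pool.Agent.Results.MP_b30443_co.ThreeTerm
import Pool.Agent.Results.MP_b30443_co.NormFormBound
import Pool.Agent.Results.MP_b30443_co.CapSetRecord

set_option autoImplicit false

/-! # The growth rate of progression-free sets is the exponent of the removal lemma

Let `3 ≤ k ≤ p`, let `λ = λ_{k,p}`. A removal lemma for `k`-term progressions in `F_p^n` with the
polynomial bound `κ ε ^ D p ^ (2 n)`, and a lower bound `κ α ^ D p ^ (2 n)` for the number of the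
progressions in sets of density `α`, hold if and only if `1 < D` and `λ ≤ p ^ (1 - 1 / (D - 1))`. So if
`λ < p` there is a best exponent, it is attained, it is the same for both, and it determines `λ`. -/

open Finset Filter Topology

namespace Pool.Agent.Results.MP_b30443_co.TightCounting

/-- `A ⊆ F_p^n` contains no nontrivial `k`-term progression `x, x+y, …, x+(k-1)y` with `y ≠ 0`. -/
def APFree (k p n : ℕ) (A : Finset (Fin n → ZMod p)) : Prop :=
  ∀ x y : Fin n → ZMod p, (∀ i : ℕ, i < k → x + i • y ∈ A) → y = 0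

/-- `r_k(F_p^n)`: the largest size of a subset of `F_p^n` without nontrivial `k`-term
progressions. -/
noncomputable def r (k p n : ℕ) : ℕ :=
  sSup {m : ℕ | ∃ A : Finset (Fin n → ZMod p), APFree k p n A ∧ A.card = m}

/-- the number of nontrivial `k`-term progressions in `A`: pairs `(x, y)` with `y ≠ 0` -/
noncomputable def apCount (k p n : ℕ) (A : Finset (Fin n → ZMod p)) : ℕ :=
  {t : (Fin n → ZMod p) × (Fin n → ZMod p) | t.2 ≠ 0 ∧ ∀ i : ℕ, i < k → t.1 + i • t.2 ∈ A}.ncard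

/-- the removal lemma with exponent `D`: if `A` has fewer than `κ ε ^ D p ^ (2 n)` nontrivial
`k`-term progressions then at most `ε p ^ n` points of `A` can be removed so that none remains -/
def Removal (k p : ℕ) (D : ℝ) : Prop :=
  ∃ κ : ℝ, 0 < κ ∧ ∀ (n : ℕ) (A : Finset (Fin n → ZMod p)) (ε : ℝ), 0 < ε →
    (apCount k p n A : ℝ) < κ * ε ^ D * (p : ℝ) ^ (2 * n) →
    ∃ A' ⊆ A, APFree k p n A' ∧ ((A \ A').card : ℝ) ≤ ε * (p : ℝ) ^ n

/-- supersaturation with exponent `D`: `apCount + |A|` is the number of all `k`-term progressions in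
`A`, trivial or not -/
def Supersaturation (k p : ℕ) (D : ℝ) : Prop :=
  ∃ κ : ℝ, 0 < κ ∧ ∀ (n : ℕ) (A : Finset (Fin n → ZMod p)),
    κ * ((A.card : ℝ) / (p : ℝ) ^ n) ^ D * (p : ℝ) ^ (2 * n) ≤ apCount k p n A + A.card

section transfer
open Pool.Agent.Q93.HP

variable {k p n : ℕ} [hpf : Fact p.Prime]

/-- the shape `{0, …, k - 1}` -/
def shape (k p : ℕ) : Finset (Fin 1 → ZMod p) :=
  (Finset.range k).image fun i : ℕ => fun _ : Fin 1 => ((i : ℕ) : ZMod p)

lemma card_shape (hkp : k ≤ p) : (shape k p).card = k := by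
  unfold shape
  rw [card_image_of_injOn, card_range]
  intro i hi j hj hij
  have hi' := mem_range.1 (mem_coe.1 hi)
  have hj' := mem_range.1 (mem_coe.1 hj)
  have h1 : ((i : ℕ) : ZMod p) = ((j : ℕ) : ZMod p) := congrFun hij 0
  rw [ZMod.natCast_eq_natCast_iff'] at h1
  rwa [Nat.mod_eq_of_lt (by omega), Nat.mod_eq_of_lt (by omega)] at h1

/-- the identification of `V^1` and `V` -/
def E (p n : ℕ) : (Fin 1 → V p n) ≃ V p n where
  toFun x := x 0
  invFun v := fun _ => v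
  left_inv x := by funext j; rw [Subsingleton.elim j 0]
  right_inv _ := rfl

/-- the identification of `V` and `V^1` -/
def up (A : Finset (V p n)) : Finset (Fin 1 → V p n) := A.map (E p n).symm.toEmbedding

/-- the inverse of `up` -/
def down (A : Finset (Fin 1 → V p n)) : Finset (V p n) := A.map (E p n).toEmbedding

lemma mem_up (A : Finset (V p n)) (x : Fin 1 → V p n) : x ∈ up A ↔ x 0 ∈ A := by
  unfold up
  rw [mem_map_equiv, Equiv.symm_symm]
  rfl

lemma up_down (A : Finset (Fin 1 → V p n)) : up (down A) = A := by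
  unfold up down
  ext x
  rw [mem_map_equiv, mem_map_equiv, Equiv.symm_symm, Equiv.symm_apply_apply]

lemma down_up (A : Finset (V p n)) : down (up A) = A := by
  unfold up down
  ext x
  rw [mem_map_equiv, mem_map_equiv, Equiv.symm_symm, Equiv.apply_symm_apply]

lemma card_up (A : Finset (V p n)) : (up A).card = A.card := card_map _

lemma up_sdiff (A B : Finset (V p n)) : up A \ up B = up (A \ B) := by
  ext x
  rw [Finset.mem_sdiff, mem_up, mem_up, mem_up, Finset.mem_sdiff]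

lemma up_subset (A B : Finset (V p n)) : up A ⊆ up B ↔ A ⊆ B := by
  unfold up
  exact map_subset_map

lemma in_shape (A : Finset (V p n)) (x : Fin 1 → V p n) (z : V p n) :
    (∀ s ∈ shape k p, x + tz s z ∈ up A) ↔ ∀ i : ℕ, i < k → x 0 + i • z ∈ A := by
  unfold shape
  constructor
  · intro h i hi
    have := h _ (mem_image.2 ⟨i, mem_range.2 hi, rfl⟩)
    rw [mem_up, Pi.add_apply] at this
    simpa [tz, Nat.cast_smul_eq_nsmul] using this
  · intro h s hs
    obtain ⟨i, hi, rfl⟩ := mem_image.1 hs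
    rw [mem_up, Pi.add_apply]
    simpa [tz, Nat.cast_smul_eq_nsmul] using h i (mem_range.1 hi)

lemma free_up (A : Finset (V p n)) : Free (shape k p) (up A) ↔ APFree k p n A := by
  constructor
  · intro h x y hxy
    by_contra hy
    obtain ⟨s, hs, hn⟩ := h (fun _ => x) y hy
    exact hn ((in_shape A (fun _ => x) y).2 hxy s hs)
  · intro h x z hz
    by_contra hcon
    push Not at hcon
    exact hz (h (x 0) z ((in_shape A x z).1 hcon))

lemma copies_up (A : Finset (V p n)) : (copies (shape k p) (up A)).card = apCount k p n A := by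
  unfold apCount
  rw [← Set.ncard_coe_finset]
  refine Set.ncard_congr (fun t _ => (t.1 0, t.2)) ?_ ?_ ?_
  · intro t ht
    obtain ⟨h1, h2⟩ := mem_copies.1 (mem_coe.1 ht)
    exact ⟨h1, (in_shape A t.1 t.2).1 h2⟩
  · intro t t' _ _ htt
    obtain ⟨h1, h2⟩ := Prod.mk.inj htt
    refine Prod.ext (funext fun j => ?_) h2
    rw [Subsingleton.elim j 0]
    exact h1
  · rintro ⟨x, z⟩ ⟨h1, h2⟩
    exact ⟨(fun _ => x, z), mem_coe.2 (mem_copies.2 ⟨h1, (in_shape A (fun _ => x) z).2 h2⟩), rfl⟩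

lemma pow_two_mul (n : ℕ) : (p : ℝ) ^ (2 * n) = ((p : ℝ) ^ n) ^ 1 * (p : ℝ) ^ n := by
  rw [pow_one, two_mul, pow_add]

lemma rl_iff (D : ℝ) : Removal k p D ↔ ∃ κ : ℝ, 0 < κ ∧ RL (shape k p) D κ := by
  constructor
  · rintro ⟨κ, hκ, h⟩
    refine ⟨κ, hκ, fun n A ε hε hcor => ?_⟩
    rw [← up_down A, copies_up, ← pow_two_mul] at hcor
    obtain ⟨A', h1, h2, h3⟩ := h n (down A) ε hε hcor
    refine ⟨up A', ?_, (free_up A').2 h2, ?_⟩
    · rw [← up_down A]
      exact (up_subset _ _).2 h1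
    · nth_rewrite 1 [← up_down A]
      rw [up_sdiff, card_up, pow_one]
      exact h3
  · rintro ⟨κ, hκ, h⟩
    refine ⟨κ, hκ, fun n A ε hε hcor => ?_⟩
    rw [← copies_up, pow_two_mul] at hcor
    obtain ⟨A', h1, h2, h3⟩ := h n (up A) ε hε hcor
    refine ⟨down A', ?_, ?_, ?_⟩
    · rw [← up_subset, up_down]
      exact h1
    · rw [← free_up, up_down]
      exact h2
    · rw [← card_up, ← up_sdiff, up_down, ← pow_one ((p : ℝ) ^ n)]
      exact h3

lemma ss_iff (D : ℝ) : Supersaturation k p D ↔ ∃ κ : ℝ, 0 < κ ∧ SS (shape k p) D κ := by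
  constructor
  · rintro ⟨κ, hκ, h⟩
    refine ⟨κ, hκ, fun n A => ?_⟩
    have h1 := h n (down A)
    rw [← copies_up, up_down, pow_two_mul, ← card_up, up_down] at h1
    rw [pow_one] at h1 ⊢
    exact h1
  · rintro ⟨κ, hκ, h⟩
    refine ⟨κ, hκ, fun n A => ?_⟩
    have h1 := h n (up A)
    rw [copies_up, card_up, ← pow_two_mul, pow_one] at h1
    exact h1

lemma one_lt_of_ss (hk : 2 ≤ k) {D : ℝ} (h : Supersaturation k p D) : 1 < D := by
  by_contra hD
  push Not at hD
  obtain ⟨κ, hκ, h⟩ := h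
  have hp1 : (1 : ℝ) < p := by exact_mod_cast hpf.out.one_lt
  have hp0 : (0 : ℝ) < p := by linarith
  obtain ⟨n, hn⟩ := pow_unbounded_of_one_lt (1 / κ) hp1
  have hpn : (1 : ℝ) ≤ (p : ℝ) ^ n := one_le_pow₀ hp1.le
  have h1 := h n {0}
  have h2 : apCount k p n {0} = 0 := by
    unfold apCount
    rw [Set.ncard_eq_zero (Set.toFinite _)]
    rw [Set.eq_empty_iff_forall_notMem]
    rintro ⟨x, y⟩ ⟨hy, hxy⟩
    have h0 := hxy 0 (by omega)
    have h1 := hxy 1 (by omega)
    simp only [zero_smul, add_zero, one_smul, mem_singleton] at h0 h1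
    rw [h0, zero_add] at h1
    exact hy h1
  rw [card_singleton, Nat.cast_one, h2, Nat.cast_zero, zero_add] at h1
  have h3 : (1 : ℝ) / (p : ℝ) ^ n ≤ (1 / (p : ℝ) ^ n) ^ D := by
    calc (1 : ℝ) / (p : ℝ) ^ n = (1 / (p : ℝ) ^ n) ^ (1 : ℝ) := by rw [Real.rpow_one]
      _ ≤ (1 / (p : ℝ) ^ n) ^ D := by
          refine Real.rpow_le_rpow_of_exponent_ge (by positivity) ?_ hD
          rw [div_le_one (by positivity)]
          exact hpn
  have h4 : κ * (1 / (p : ℝ) ^ n) * (p : ℝ) ^ (2 * n) ≤ 1 :=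
    le_trans (mul_le_mul_of_nonneg_right (mul_le_mul_of_nonneg_left h3 hκ.le) (by positivity)) h1
  have h5 : κ * (1 / (p : ℝ) ^ n) * (p : ℝ) ^ (2 * n) = κ * (p : ℝ) ^ n := by
    rw [two_mul, pow_add]
    field_simp
  rw [h5] at h4
  rw [div_lt_iff₀ hκ] at hn
  linarith

lemma one_lt_of_rl (hk : 2 ≤ k) (hkp : k ≤ p) {D : ℝ} (h : Removal k p D) : 1 < D := by
  by_contra hD
  push Not at hD
  have hp1 : (1 : ℝ) < p := by exact_mod_cast hpf.out.one_lt
  have hp0 : (0 : ℝ) < p := by linarith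
  have hS : 2 ≤ (shape k p).card := by rw [card_shape hkp]; exact hk
  obtain ⟨κ, hκ, h⟩ := (rl_iff D).1 h
  have h1 : RL (shape k p) (1 + 1 / 2) κ :=
    h.mono (card_pos.1 (by omega)) (by linarith) hκ
  obtain ⟨C, hC, hPS⟩ := PS_of_RL hS (e := 2) (by norm_num) hκ h1
  obtain ⟨n, hn⟩ := pow_unbounded_of_one_lt C hp1
  have h2 := hPS n (up {0}) ((free_up _).2 (by
    intro x y hxy
    have h0 := hxy 0 (by omega)
    have h1 := hxy 1 (by omega)
    simp only [zero_smul, add_zero, one_smul, mem_singleton] at h0 h1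
    rw [h0, zero_add] at h1
    exact h1))
  rw [card_up, card_singleton, Nat.cast_one, pow_one] at h2
  have h3 : (p : ℝ) ^ n * ((p : ℝ) ^ n) ^ (-(2 : ℝ)) = ((p : ℝ) ^ n)⁻¹ := by
    rw [Real.rpow_neg (by positivity)]
    have : ((p : ℝ) ^ n) ^ (2 : ℝ) = (p : ℝ) ^ n * (p : ℝ) ^ n := by
      rw [Real.rpow_two, pow_two]
    rw [this]
    field_simp
  rw [h3, ← div_eq_mul_inv, le_div_iff₀ (by positivity), one_mul] at h2
  linarith

lemma exists_r (hk : 2 ≤ k) (n : ℕ) : ∃ A : Finset (V p n), APFree k p n A ∧ A.card = r k p n :=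
  ThreeTerm.exists_r n (by omega)

lemma le_r {A : Finset (V p n)} (h : APFree k p n A) : A.card ≤ r k p n := ThreeTerm.le_r h

lemma one_le_r (hk : 2 ≤ k) (n : ℕ) : 1 ≤ r k p n := ThreeTerm.one_le_r n hk

lemma r_pow_le (hk : 2 ≤ k) (m : ℕ) : ∀ j : ℕ, r k p m ^ j ≤ r k p (j * m) := by
  intro j
  induction j with
  | zero =>
    rw [pow_zero, zero_mul]
    exact one_le_r hk 0
  | succ j ih =>
    rw [pow_succ]
    refine (Nat.mul_le_mul_right _ ih).trans ?_
    have := ThreeTerm.r_mul_le (k := k) (p := p) (j * m) m (by omega)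
    rwa [show j * m + m = (j + 1) * m by ring] at this

lemma lim_ge (hk : 2 ≤ k) {L : ℝ}
    (hL : Tendsto (fun n : ℕ => (r k p n : ℝ) ^ (1 / (n : ℝ))) atTop (𝓝 L)) (m : ℕ) (hm : 1 ≤ m) :
    (r k p m : ℝ) ^ (1 / (m : ℝ)) ≤ L := by
  have hsub : Tendsto (fun j : ℕ => (j + 1) * m) atTop atTop := by
    apply tendsto_atTop_mono (f := fun j : ℕ => j) _ tendsto_id
    intro j
    show j ≤ (j + 1) * m
    nlinarith
  refine ge_of_tendsto (hL.comp hsub) (Eventually.of_forall fun j => ?_)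
  show _ ≤ (r k p ((j + 1) * m) : ℝ) ^ (1 / (((j + 1) * m : ℕ) : ℝ))
  have h1 : (r k p m : ℝ) ^ (j + 1) ≤ (r k p ((j + 1) * m) : ℝ) := by
    exact_mod_cast r_pow_le hk m (j + 1)
  have hm' : (0 : ℝ) < m := by exact_mod_cast hm
  have h2 : (r k p m : ℝ) ^ (1 / (m : ℝ)) =
      ((r k p m : ℝ) ^ (j + 1)) ^ (1 / (((j + 1) * m : ℕ) : ℝ)) := by
    rw [← Real.rpow_natCast, ← Real.rpow_mul (Nat.cast_nonneg _)]
    congr 1
    push_cast
    field_simp
  rw [h2]
  exact Real.rpow_le_rpow (by positivity) h1 (by positivity)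

lemma pe (n : ℕ) (e : ℝ) :
    ((p : ℝ) ^ n) ^ 1 * ((p : ℝ) ^ n) ^ (-e) = ((p : ℝ) ^ (1 - e)) ^ n := by
  have hp0 : (0 : ℝ) < p := by exact_mod_cast hpf.out.pos
  rw [pow_one, ← Real.rpow_natCast, ← Real.rpow_natCast, ← Real.rpow_mul hp0.le,
    ← Real.rpow_mul hp0.le, ← Real.rpow_add hp0]
  congr 1
  ring

lemma ps_iff (hk : 2 ≤ k) {L : ℝ}
    (hL : Tendsto (fun n : ℕ => (r k p n : ℝ) ^ (1 / (n : ℝ))) atTop (𝓝 L)) (e : ℝ) :
    (∃ C : ℝ, 0 < C ∧ PS (shape k p) e C) ↔ L ≤ (p : ℝ) ^ (1 - e) := by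
  have hp0 : (0 : ℝ) < p := by exact_mod_cast hpf.out.pos
  constructor
  · rintro ⟨C, hC, h⟩
    have h1 : Tendsto (fun n : ℕ => C ^ (1 / (n : ℝ)) * (p : ℝ) ^ (1 - e)) atTop
        (𝓝 (1 * (p : ℝ) ^ (1 - e))) := by
      refine Tendsto.mul_const _ ?_
      have h2 : Tendsto (fun x : ℝ => C ^ x) (𝓝 0) (𝓝 (C ^ (0 : ℝ))) :=
        (Real.continuousAt_const_rpow hC.ne').tendsto
      rw [Real.rpow_zero] at h2
      exact h2.comp tendsto_one_div_atTop_nhds_zero_nat
    rw [one_mul] at h1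
    refine le_of_tendsto_of_tendsto hL h1 ?_
    filter_upwards [eventually_ge_atTop 1] with n hn
    obtain ⟨A, hA, hAr⟩ := exists_r (p := p) hk n
    have h3 := h n (up A) ((free_up A).2 hA)
    rw [card_up, hAr, pe] at h3
    have hn' : n ≠ 0 := by omega
    calc (r k p n : ℝ) ^ (1 / (n : ℝ)) ≤ (C * ((p : ℝ) ^ (1 - e)) ^ n) ^ (1 / (n : ℝ)) :=
          Real.rpow_le_rpow (by positivity) h3 (by positivity)
      _ = C ^ (1 / (n : ℝ)) * (p : ℝ) ^ (1 - e) := by
          rw [Real.mul_rpow hC.le (by positivity), one_div,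
            Real.pow_rpow_inv_natCast (by positivity) hn']
  · intro h
    refine ⟨1, one_pos, fun n A hA => ?_⟩
    have h1 : (A.card : ℝ) ≤ r k p n := by
      have h2 : APFree k p n (down A) := by rw [← free_up, up_down]; exact hA
      have h3 := le_r h2
      rw [← card_up, up_down] at h3
      exact_mod_cast h3
    rw [one_mul, pe]
    refine h1.trans ?_
    rcases Nat.eq_zero_or_pos n with rfl | hn
    · rw [pow_zero]
      have := ThreeTerm.r_le (k := k) (p := p) 0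
      exact_mod_cast this
    · have h4 := (lim_ge hk hL n hn).trans h
      have hn' : n ≠ 0 := by omega
      calc (r k p n : ℝ) = ((r k p n : ℝ) ^ (1 / (n : ℝ))) ^ n := by
            rw [one_div, Real.rpow_inv_natCast_pow (by positivity) hn']
        _ ≤ ((p : ℝ) ^ (1 - e)) ^ n := pow_le_pow_left₀ (by positivity) h4 n

lemma inv_e {D : ℝ} (hD : 1 < D) : 0 < 1 / (D - 1) ∧ 1 + 1 / (1 / (D - 1)) = D := by
  have h : 0 < D - 1 := by linarith
  exact ⟨by positivity, by rw [one_div_one_div]; ring⟩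

lemma removal_iff (hk : 2 ≤ k) (hkp : k ≤ p) {L : ℝ}
    (hL : Tendsto (fun n : ℕ => (r k p n : ℝ) ^ (1 / (n : ℝ))) atTop (𝓝 L)) (D : ℝ) :
    Removal k p D ↔ 1 < D ∧ L ≤ (p : ℝ) ^ (1 - 1 / (D - 1)) := by
  have hS : 2 ≤ (shape k p).card := by rw [card_shape hkp]; exact hk
  constructor
  · intro h
    have hD := one_lt_of_rl hk hkp h
    refine ⟨hD, ?_⟩
    obtain ⟨he, heq⟩ := inv_e hD
    obtain ⟨κ, hκ, h1⟩ := (rl_iff D).1 h
    rw [← heq] at h1
    exact (ps_iff hk hL _).1 (PS_of_RL hS he hκ h1)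
  · rintro ⟨hD, h⟩
    obtain ⟨he, heq⟩ := inv_e hD
    obtain ⟨C, hC, h1⟩ := (ps_iff hk hL _).2 h
    obtain ⟨κ, hκ, h2⟩ := RL_of_PS hS he hC h1
    rw [heq] at h2
    exact (rl_iff D).2 ⟨κ, hκ, h2⟩

lemma supersaturation_iff (hk : 2 ≤ k) (hkp : k ≤ p) {L : ℝ}
    (hL : Tendsto (fun n : ℕ => (r k p n : ℝ) ^ (1 / (n : ℝ))) atTop (𝓝 L)) (D : ℝ) :
    Supersaturation k p D ↔ 1 < D ∧ L ≤ (p : ℝ) ^ (1 - 1 / (D - 1)) := by
  have hS : 2 ≤ (shape k p).card := by rw [card_shape hkp]; exact hk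
  constructor
  · intro h
    have hD := one_lt_of_ss hk h
    refine ⟨hD, ?_⟩
    obtain ⟨he, heq⟩ := inv_e hD
    obtain ⟨κ, hκ, h1⟩ := (ss_iff D).1 h
    rw [← heq] at h1
    exact (ps_iff hk hL _).1 (PS_of_SS he hκ h1)
  · rintro ⟨hD, h⟩
    obtain ⟨he, heq⟩ := inv_e hD
    obtain ⟨C, hC, h1⟩ := (ps_iff hk hL _).2 h
    obtain ⟨κ, hκ, h2⟩ := SS_of_PS hS he hC h1
    rw [heq] at h2
    exact (ss_iff D).2 ⟨κ, hκ, h2⟩

/-- the best exponent -/
lemma exponent_iff {L : ℝ} (hL1 : 1 < L) (hLp : L < p) (D : ℝ) :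
    (1 < D ∧ L ≤ (p : ℝ) ^ (1 - 1 / (D - 1))) ↔ 1 + 1 / (1 - Real.logb p L) ≤ D := by
  have hp1 : (1 : ℝ) < p := by exact_mod_cast hpf.out.one_lt
  have hb0 : 0 < Real.logb p L := Real.logb_pos hp1 hL1
  have hb1 : Real.logb p L < 1 := by
    rw [Real.logb_lt_iff_lt_rpow hp1 (by linarith), Real.rpow_one]
    exact hLp
  constructor
  · rintro ⟨hD, h⟩
    have hD' : 0 < D - 1 := by linarith
    rw [← Real.logb_le_iff_le_rpow hp1 (by linarith)] at h
    have h1 : 1 / (D - 1) ≤ 1 - Real.logb p L := by linarith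
    have h2 : 1 / (1 - Real.logb p L) ≤ D - 1 := by
      rw [div_le_iff₀ hD'] at h1
      rw [div_le_iff₀ (by linarith)]
      linarith
    linarith
  · intro h
    have h0 : 0 < 1 / (1 - Real.logb p L) := by
      have : 0 < 1 - Real.logb p L := by linarith
      positivity
    have hD : 1 < D := by linarith
    have hD' : 0 < D - 1 := by linarith
    refine ⟨hD, ?_⟩
    rw [← Real.logb_le_iff_le_rpow hp1 (by linarith)]
    have h1 : 1 / (1 - Real.logb p L) ≤ D - 1 := by linarith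
    rw [div_le_iff₀ (by linarith)] at h1
    have h2 : 1 / (D - 1) ≤ 1 - Real.logb p L := by
      rw [div_le_iff₀ hD']
      linarith
    linarith

end transfer

lemma hchar1 : ∀ a b c : ZMod 3, a + b + c = 0 → a + 2 * (b - a) = c := by decide

lemma hchar2 : ∀ a c : ZMod 3, a + a + c = 0 → a = c := by decide

section bounds
variable {k p : ℕ} [hpf : Fact p.Prime]

lemma lower (hk : 3 ≤ k) (hkp : k ≤ p) {L : ℝ}
    (hL : Tendsto (fun n : ℕ => (r k p n : ℝ) ^ (1 / (n : ℝ))) atTop (𝓝 L))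
    (hL56 : 0.56 * (p : ℝ) ≤ L) {D : ℝ} (hD : 1 < D) (h : L ≤ (p : ℝ) ^ (1 - 1 / (D - 1))) :
    1 + (k : ℝ) * ((k : ℝ) - 1) / 2 ≤ D ∧ 1 + 1.72 * Real.log p ≤ D := by
  have hp1 : (1 : ℝ) < p := by exact_mod_cast hpf.out.one_lt
  have hp0 : (0 : ℝ) < p := by linarith
  have hD' : 0 < D - 1 := by linarith
  have hk3 : (3 : ℝ) ≤ k := by exact_mod_cast hk
  constructor
  · have hnorm : (p : ℝ) ^ (1 - 2 / ((k : ℝ) * ((k : ℝ) - 1))) ≤ L := by
      refine (NormFormBound.result p k (by omega) hkp).trans ?_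
      unfold NormFormBound.lam
      apply ciSup_le
      intro n
      have := lim_ge (k := k) (by omega) hL (n + 1) (by omega)
      push_cast at this
      exact this
    have h1 := hnorm.trans h
    rw [Real.rpow_le_rpow_left_iff hp1] at h1
    have hkk : 0 < (k : ℝ) * ((k : ℝ) - 1) := by nlinarith
    have h2 : 1 / (D - 1) ≤ 2 / ((k : ℝ) * ((k : ℝ) - 1)) := by linarith
    rw [div_le_div_iff₀ hD' hkk] at h2
    linarith
  · have h1 := hL56.trans h
    rw [Real.rpow_sub hp0, Real.rpow_one, le_div_iff₀ (by positivity)] at h1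
    have h2 : (p : ℝ) ^ (1 / (D - 1)) ≤ 25 / 14 := by
      have : 0.56 * (p : ℝ) ^ (1 / (D - 1)) * p ≤ 1 * p := by linarith
      have := le_of_mul_le_mul_right this hp0
      linarith
    have h3 : 1 / (D - 1) * Real.log p ≤ Real.log (25 / 14) := by
      rw [← Real.log_rpow hp0]
      exact Real.log_le_log (by positivity) h2
    have h4 : Real.log (25 / 14) ≤ 25 / 43 := by
      rw [Real.log_le_iff_le_exp (by norm_num)]
      refine le_trans ?_ (Real.sum_le_exp_of_nonneg (by norm_num) 5)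
      norm_num [sum_range_succ, Nat.factorial]
    have hlog : 0 ≤ Real.log p := Real.log_nonneg hp1.le
    have h5 : Real.log p ≤ 25 / 43 * (D - 1) := by
      have : 1 / (D - 1) * Real.log p ≤ 25 / 43 := h3.trans h4
      rw [one_div, inv_mul_le_iff₀ hD'] at this
      linarith
    linarith

/-- bounds for cap sets -/
lemma three {L : ℝ} (hL : Tendsto (fun n : ℕ => (r 3 3 n : ℝ) ^ (1 / (n : ℝ))) atTop (𝓝 L)) :
    2.22086 ≤ L ∧ L ≤ (3 : ℝ) ^ (67 / 72 : ℝ) := by
  haveI : Fact (Nat.Prime 3) := ⟨Nat.prime_three⟩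
  constructor
  · obtain ⟨n0, h0⟩ := CapSetRecord.result
    refine ge_of_tendsto hL ?_
    filter_upwards [eventually_ge_atTop (max n0 1)] with n hn
    obtain ⟨A, hA, hAc⟩ := h0 n (le_trans (le_max_left _ _) hn)
    have hn' : n ≠ 0 := by have := le_trans (le_max_right n0 1) hn; omega
    have hfree : APFree 3 3 n A := by
      intro x y h
      refine hA x y ?_ ?_ (h 2 (by omega))
      · simpa using h 0 (by omega)
      · simpa using h 1 (by omega)
    have h1 : (A.card : ℝ) ≤ r 3 3 n := by exact_mod_cast le_r hfree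
    calc (2.22086 : ℝ) = ((2.22086 : ℝ) ^ n) ^ (1 / (n : ℝ)) := by
          rw [one_div, Real.pow_rpow_inv_natCast (by norm_num) hn']
      _ ≤ (r 3 3 n : ℝ) ^ (1 / (n : ℝ)) :=
          Real.rpow_le_rpow (by positivity) (hAc.trans h1) (by positivity)
  · set x : ℝ := (3 : ℝ) ^ (67 / 72 : ℝ) with hx
    have hx0 : 0 < x := by positivity
    have hx3 : (343 / 16 : ℝ) ≤ x ^ 3 := by
      have h1 : (343 / 16 : ℝ) ^ 24 ≤ (x ^ 3) ^ 24 := by
        have : (x ^ 3) ^ 24 = (3 : ℝ) ^ 67 := by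
          rw [hx, ← pow_mul, ← Real.rpow_natCast, ← Real.rpow_mul (by norm_num)]
          rw [← Real.rpow_natCast]
          congr 1
          norm_num
        rw [this]
        norm_num
      exact le_of_pow_le_pow_left₀ (by norm_num) (by positivity) h1
    have h1 : Tendsto (fun m : ℕ => (3 : ℝ) ^ (1 / (((m + 1) * 3 : ℕ) : ℝ)) * x) atTop
        (𝓝 (1 * x)) := by
      refine Tendsto.mul_const _ ?_
      have h2 : Tendsto (fun y : ℝ => (3 : ℝ) ^ y) (𝓝 0) (𝓝 ((3 : ℝ) ^ (0 : ℝ))) :=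
        (Real.continuousAt_const_rpow (by norm_num)).tendsto
      rw [Real.rpow_zero] at h2
      have h3 : Tendsto (fun m : ℕ => (m + 1) * 3) atTop atTop :=
        tendsto_atTop_mono (f := fun j : ℕ => j) (fun j => by show j ≤ (j + 1) * 3; omega)
          tendsto_id
      exact h2.comp (tendsto_one_div_atTop_nhds_zero_nat.comp h3)
    rw [one_mul] at h1
    have hsub : Tendsto (fun m : ℕ => (m + 1) * 3) atTop atTop :=
      tendsto_atTop_mono (f := fun j : ℕ => j) (fun j => by show j ≤ (j + 1) * 3; omega)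
        tendsto_id
    refine le_of_tendsto_of_tendsto (hL.comp hsub) h1 (Eventually.of_forall fun m => ?_)
    show (r 3 3 ((m + 1) * 3) : ℝ) ^ (1 / (((m + 1) * 3 : ℕ) : ℝ)) ≤ _
    have hr : (r 3 3 ((m + 1) * 3) : ℝ) ≤ 3 * x ^ ((m + 1) * 3) := by
      rw [mul_comm (m + 1) 3]
      obtain ⟨A, hA, hAr⟩ := exists_r (k := 3) (p := 3) (by norm_num) (3 * (m + 1))
      have h4 := Pool.Agent.Q250.VSR.cap (m + 1) A (by
        intro u hu v hv w hw huvw
        have hkey : v - u = 0 := by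
          apply hA u (v - u)
          intro i hi
          interval_cases i
          · simpa using hu
          · simpa using hv
          · have : u + 2 • (v - u) = w := by
              funext j
              have := congrFun huvw j
              simp only [Pi.add_apply, Pi.smul_apply, Pi.sub_apply, Pi.zero_apply] at this ⊢
              rw [nsmul_eq_mul]
              exact hchar1 _ _ _ this
            rw [this]; exact hw
        have huv : u = v := (sub_eq_zero.1 hkey).symm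
        refine ⟨huv, ?_⟩
        subst huv
        funext j
        have := congrFun huvw j
        exact hchar2 _ _ this)
      rw [hAr] at h4
      have h5 : (r 3 3 (3 * (m + 1)) : ℝ) * 16 ^ (m + 1) ≤ 3 * 343 ^ (m + 1) := by exact_mod_cast h4
      rw [pow_mul]
      have h6 : (343 / 16 : ℝ) ^ (m + 1) ≤ (x ^ 3) ^ (m + 1) :=
        pow_le_pow_left₀ (by norm_num) hx3 _
      rw [div_pow, div_le_iff₀ (by positivity)] at h6
      have h7 : (r 3 3 (3 * (m + 1)) : ℝ) * 16 ^ (m + 1) ≤ (3 * (x ^ 3) ^ (m + 1)) * 16 ^ (m + 1) := by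
        linarith
      exact le_of_mul_le_mul_right h7 (by positivity)
    have hne : (m + 1) * 3 ≠ 0 := by omega
    calc (r 3 3 ((m + 1) * 3) : ℝ) ^ (1 / (((m + 1) * 3 : ℕ) : ℝ))
        ≤ (3 * x ^ ((m + 1) * 3)) ^ (1 / (((m + 1) * 3 : ℕ) : ℝ)) :=
          Real.rpow_le_rpow (by positivity) hr (by positivity)
      _ = (3 : ℝ) ^ (1 / (((m + 1) * 3 : ℕ) : ℝ)) * x := by
          rw [Real.mul_rpow (by norm_num) (by positivity)]
          congr 1
          rw [one_div, Real.pow_rpow_inv_natCast hx0.le hne]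

end bounds

/-- **Theorem.** Let `3 ≤ k ≤ p`, let `L = λ_{k,p}` be the growth rate of `r_k(F_p^n)`.

* The removal lemma with exponent `D` holds iff supersaturation with exponent `D` holds iff `1 < D`
  and `λ ≤ p ^ (1 - 1 / (D - 1))`.
* If `λ < p` then the set of the valid exponents is `[D*, ∞)`, `D* = 1 + 1 / (1 - log_p λ)`.
* Every valid exponent is at least `1 + k (k - 1) / 2` and at least `1 + 1.72 log p`.
* For `p = k = 3` the number `D*` lies in `(4.65, 15.4]`. -/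
theorem result (k p : ℕ) [Fact p.Prime] (hk : 3 ≤ k) (hkp : k ≤ p) :
    ∃ L : ℝ, Tendsto (fun n : ℕ => (r k p n : ℝ) ^ (1 / (n : ℝ))) atTop (𝓝 L) ∧
      (∀ D : ℝ, Removal k p D ↔ 1 < D ∧ L ≤ (p : ℝ) ^ (1 - 1 / (D - 1))) ∧
      (∀ D : ℝ, Supersaturation k p D ↔ 1 < D ∧ L ≤ (p : ℝ) ^ (1 - 1 / (D - 1))) ∧
      (L < p → {D : ℝ | Removal k p D} = Set.Ici (1 + 1 / (1 - Real.logb p L)) ∧
        {D : ℝ | Supersaturation k p D} = Set.Ici (1 + 1 / (1 - Real.logb p L))) ∧
      (∀ D : ℝ, (Removal k p D ∨ Supersaturation k p D) →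
        1 + (k : ℝ) * ((k : ℝ) - 1) / 2 ≤ D ∧ 1 + 1.72 * Real.log p ≤ D) ∧
      (p = 3 → L < 3 ∧ Removal k p 15.4 ∧ Supersaturation k p 15.4 ∧ ¬ Removal k p 4.65 ∧
        ¬ Supersaturation k p 4.65) := by
  obtain ⟨L, hL, hL56, -⟩ := ThreeTerm.result k p hk hkp
  have hL' : Tendsto (fun n : ℕ => (r k p n : ℝ) ^ (1 / (n : ℝ))) atTop (𝓝 L) := hL
  have hp3 : (3 : ℝ) ≤ p := by exact_mod_cast hk.trans hkp
  have hL1 : 1 < L := by linarith
  have hR := removal_iff (by omega) hkp hL'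
  have hSS := supersaturation_iff (by omega) hkp hL'
  refine ⟨L, hL', hR, hSS, ?_, ?_, ?_⟩
  · intro hLp
    constructor
    · ext D
      exact (hR D).trans (exponent_iff hL1 hLp D)
    · ext D
      exact (hSS D).trans (exponent_iff hL1 hLp D)
  · intro D h
    have h' : 1 < D ∧ L ≤ (p : ℝ) ^ (1 - 1 / (D - 1)) := by
      rcases h with h | h
      · exact (hR D).1 h
      · exact (hSS D).1 h
    exact lower hk hkp hL' hL56 h'.1 h'.2
  · intro hp
    subst hp
    have hk3 : k = 3 := by omega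
    subst hk3
    obtain ⟨h1, h2⟩ := three hL'
    have e1 : (1 - 1 / (15.4 - 1) : ℝ) = 67 / 72 := by norm_num
    have e2 : (1 - 1 / (4.65 - 1) : ℝ) = 53 / 73 := by norm_num
    have hlow : ¬ (L ≤ ((3 : ℕ) : ℝ) ^ (1 - 1 / (4.65 - 1) : ℝ)) := by
      rw [e2]
      push_cast
      intro h
      have h3 : (2.22086 : ℝ) ^ 73 ≤ ((3 : ℝ) ^ (53 / 73 : ℝ)) ^ 73 :=
        pow_le_pow_left₀ (by norm_num) (h1.trans h) 73
      have h4 : ((3 : ℝ) ^ (53 / 73 : ℝ)) ^ 73 = (3 : ℝ) ^ 53 := by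
        rw [← Real.rpow_natCast, ← Real.rpow_mul (by norm_num)]
        rw [← Real.rpow_natCast]
        congr 1
        norm_num
      rw [h4] at h3
      norm_num at h3
    have hup : L ≤ ((3 : ℕ) : ℝ) ^ (1 - 1 / (15.4 - 1) : ℝ) := by
      rw [e1]
      exact_mod_cast h2
    refine ⟨?_, (hR _).2 ⟨by norm_num, hup⟩, (hSS _).2 ⟨by norm_num, hup⟩,
      fun h => hlow ((hR _).1 h).2, fun h => hlow ((hSS _).1 h).2⟩
    refine lt_of_le_of_lt h2 ?_
    calc (3 : ℝ) ^ (67 / 72 : ℝ) < (3 : ℝ) ^ (1 : ℝ) :=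
          Real.rpow_lt_rpow_of_exponent_lt (by norm_num) (by norm_num)
      _ = 3 := Real.rpow_one _

end Pool.Agent.Results.MP_b30443_co.TightCounting
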