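import Pool.Agent.Q102.VC.Haussler
import Pool.Agent.Q102.VC.Quad
import Pool.Agent.Results.MP_b30443_co.ThreeTerm
import Pool.Agent.Results.MP_b30443_co.NormFormBound

set_option autoImplicit false

/-!
# Progression-free subsets of `F_p^n` of small Vapnik-Chervonenkis dimension

Let `3 ≤ k ≤ p`. Subsets of `F_p^n` without `k`-term progressions whose translates shatter no set
with more than `D` elements have at most `11 (k - 1) p ^ ((1 - 1 / D) n)` elements. This is the order
of magnitude for `D = 1, 2, 3`. So the extremal sets for `r_k(F_p^n)` have dimension at least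
`k (k - 1) / 2` and at least `1.7 log p`.

Proof. Every translate of a set `A` without `k`-term progressions contains at least `|A| / (k - 1)`
points that are not in another given translate; apply Haussler's packing lemma to all the translates.
The examples are the graphs of anisotropic quadratic forms over large fields.
-/

namespace Pool.Agent.Results.MP_b30443_co.VCDimension

open Finset Filter Topology
open Pool.Agent.Q102.VC

/-- `A ⊆ F_p^n` contains no nontrivial `k`-term progression `x, x+y, …, x+(k-1)y` with `y ≠ 0`. -/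
def APFree (k p n : ℕ) (A : Finset (Fin n → ZMod p)) : Prop :=
  ∀ x y : Fin n → ZMod p, (∀ i : ℕ, i < k → x + i • y ∈ A) → y = 0

/-- `r_k(F_p^n)`: the largest size of a subset of `F_p^n` without nontrivial `k`-term
progressions. -/
noncomputable def r (k p n : ℕ) : ℕ :=
  sSup {m : ℕ | ∃ A : Finset (Fin n → ZMod p), APFree k p n A ∧ A.card = m}

/-- `Z` is shattered by the translates of `A`: every subset of `Z` is of the form
`Z ∩ (A + t)`. -/
def Shattered {p n : ℕ} (A Z : Finset (Fin n → ZMod p)) : Prop :=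
  ∀ B ⊆ Z, ∃ t : Fin n → ZMod p, ∀ x ∈ Z, x ∈ B ↔ x - t ∈ A

variable {k p n : ℕ} [hpf : Fact p.Prime]

lemma escape (hk : 2 ≤ k) {A : Finset (Fin n → ZMod p)} (hA : APFree k p n A)
    {d : Fin n → ZMod p} (hd : d ≠ 0) : A.card ≤ (k - 1) * (A.filter fun a => a + d ∉ A).card := by
  classical
  have hex : ∀ a : Fin n → ZMod p, ∃ j : ℕ, j < k ∧ a + j • d ∉ A := by
    intro a
    by_contra hcon
    push Not at hcon
    exact hd (hA a d hcon)
  let f : (Fin n → ZMod p) → ℕ := fun a => Nat.find (hex a)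
  have hf1 : ∀ a, f a < k ∧ a + f a • d ∉ A := fun a => Nat.find_spec (hex a)
  have hf2 : ∀ a, ∀ j < f a, a + j • d ∈ A := by
    intro a j hj
    have := Nat.find_min (hex a) hj
    push Not at this
    exact this (lt_trans hj (hf1 a).1)
  have hf0 : ∀ a ∈ A, 1 ≤ f a := by
    intro a ha
    by_contra h
    have h0 : f a = 0 := by omega
    have := (hf1 a).2
    rw [h0, zero_smul, add_zero] at this
    exact this ha
  let g : (Fin n → ZMod p) → (Fin n → ZMod p) := fun a => a + (f a - 1) • d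
  have hg : A.image g ⊆ A.filter fun a => a + d ∉ A := by
    intro b hb
    obtain ⟨a, ha, rfl⟩ := mem_image.1 hb
    have h1 := hf0 a ha
    rw [mem_filter]
    refine ⟨hf2 a _ (by omega), ?_⟩
    have : g a + d = a + f a • d := by
      show a + (f a - 1) • d + d = _
      obtain ⟨j, hj⟩ : ∃ j, f a = j + 1 := ⟨f a - 1, by omega⟩
      rw [hj, Nat.add_sub_cancel, add_smul, one_smul, add_assoc]
    rw [this]
    exact (hf1 a).2
  have hfib : ∀ b ∈ A.image g, (A.filter fun a => g a = b).card ≤ k - 1 := by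
    intro b _
    have hsub : (A.filter fun a => g a = b) ⊆ (range (k - 1)).image fun i => b - i • d := by
      intro a ha
      rw [mem_filter] at ha
      have h1 := hf0 a ha.1
      have h2 := (hf1 a).1
      rw [mem_image]
      refine ⟨f a - 1, mem_range.2 (by omega), ?_⟩
      rw [← ha.2]
      show a + (f a - 1) • d - (f a - 1) • d = a
      simp
    refine (card_le_card hsub).trans (card_image_le.trans ?_)
    rw [card_range]
  have h1 := card_le_mul_card_image (s := A) (f := g) (k - 1) hfib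
  exact h1.trans (Nat.mul_le_mul_left _ (card_le_card hg))

lemma far (hk : 2 ≤ k) {A : Finset (Fin n → ZMod p)} (hA : APFree k p n A)
    {t t' : Fin n → ZMod p} (hne : t ≠ t') :
    2 * A.card ≤ (k - 1) * ((univ : Finset (Fin n → ZMod p)).filter fun x =>
      ¬ (x ∈ A.image (fun a => a + t) ↔ x ∈ A.image (fun a => a + t'))).card := by
  classical
  have hmem : ∀ (s x : Fin n → ZMod p), x ∈ A.image (fun a => a + s) ↔ x - s ∈ A := by
    intro s x
    rw [mem_image]
    constructor
    · rintro ⟨a, ha, rfl⟩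
      simpa using ha
    · intro h
      exact ⟨x - s, h, by simp⟩
  have half : ∀ s s' : Fin n → ZMod p, s ≠ s' →
      A.card ≤ (k - 1) * ((univ : Finset (Fin n → ZMod p)).filter fun x =>
        x - s ∈ A ∧ x - s' ∉ A).card := by
    intro s s' hss
    have h1 := escape hk hA (d := s - s') (sub_ne_zero.2 hss)
    refine h1.trans (Nat.mul_le_mul_left _ ?_)
    rw [← card_image_of_injective _ (add_left_injective s)]
    apply card_le_card
    intro x hx
    obtain ⟨a, ha, rfl⟩ := mem_image.1 hx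
    rw [mem_filter] at ha ⊢
    refine ⟨mem_univ _, ?_, ?_⟩
    · simpa using ha.1
    · have : a + s - s' = a + (s - s') := by abel
      rw [this]
      exact ha.2
  have h1 := half t t' hne
  have h2 := half t' t hne.symm
  have h3 : ((univ : Finset (Fin n → ZMod p)).filter fun x => x - t ∈ A ∧ x - t' ∉ A).card +
      ((univ : Finset (Fin n → ZMod p)).filter fun x => x - t' ∈ A ∧ x - t ∉ A).card =
      ((univ : Finset (Fin n → ZMod p)).filter fun x =>
      ¬ (x ∈ A.image (fun a => a + t) ↔ x ∈ A.image (fun a => a + t'))).card := by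
    rw [← card_union_of_disjoint]
    · congr 1
      ext x
      rw [mem_union, mem_filter, mem_filter, mem_filter, hmem, hmem]
      have := mem_univ x
      tauto
    · rw [disjoint_left]
      intro x hx hx'
      rw [mem_filter] at hx hx'
      exact hx'.2.2 hx.2.1
  rw [← h3, mul_add]
  omega

/-- sets of bounded dimension -/
lemma bounded (hk : 3 ≤ k) {D : ℕ} {A : Finset (Fin n → ZMod p)} (hD1 : 1 ≤ D)
    (hA : APFree k p n A) (hD : ∀ Z : Finset (Fin n → ZMod p), Shattered A Z → Z.card ≤ D) :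
    (A.card : ℝ) ≤ 11 * ((k : ℝ) - 1) * (p : ℝ) ^ ((1 - 1 / (D : ℝ)) * n) := by
  classical
  have hp0 : (0 : ℝ) < p := by exact_mod_cast hpf.out.pos
  have hk' : (2 : ℝ) ≤ (k : ℝ) - 1 := by
    have : (3 : ℝ) ≤ k := by exact_mod_cast hk
    linarith
  rcases A.eq_empty_or_nonempty with hA0 | hne
  · rw [hA0, card_empty]
    have : 0 ≤ (p : ℝ) ^ ((1 - 1 / (D : ℝ)) * n) := by positivity
    push_cast
    positivity
  have hAc : (0 : ℝ) < A.card := by exact_mod_cast card_pos.2 hne
  have hU : (univ : Finset (Fin n → ZMod p)).card = p ^ n := by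
    rw [card_univ, Fintype.card_fun, ZMod.card, Fintype.card_fin]
  have hAU : A.card ≤ p ^ n := by
    rw [← hU]; exact card_le_univ A
  have hAU' : (A.card : ℝ) ≤ (p : ℝ) ^ n := by exact_mod_cast hAU
  have h := haussler_real (univ : Finset (Fin n → ZMod p)) (fun t => A.image fun a => a + t) univ D
    (2 * A.card / ((k : ℝ) - 1)) (by positivity) (by
      rw [hU, div_le_iff₀ (by linarith)]
      push_cast
      nlinarith) (by
      intro t _ t' _ hne
      rw [div_le_iff₀ (by linarith)]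
      have h1 := far (by omega : 2 ≤ k) hA hne
      have h2 : (2 * A.card : ℝ) ≤ ((k - 1 : ℕ) : ℝ) * (((univ : Finset (Fin n → ZMod p)).filter fun x =>
        ¬ (x ∈ A.image (fun a => a + t) ↔ x ∈ A.image (fun a => a + t'))).card : ℝ) := by
        exact_mod_cast h1
      rw [Nat.cast_sub (by omega)] at h2
      push_cast at h2
      linarith) hD1 (by
      intro Z hZ
      apply hD
      intro B hB
      obtain ⟨t, -, htB⟩ := hZ B hB
      refine ⟨t, fun x hx => ?_⟩
      rw [← htB, mem_tr, mem_image]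
      constructor
      · rintro ⟨_, a, ha, rfl⟩
        simpa using ha
      · intro hxt
        exact ⟨hx, x - t, hxt, by simp⟩)
  rw [hU] at h
  push_cast at h
  have hD' : (0 : ℝ) < D := by exact_mod_cast hD1
  have hX : 0 ≤ 4 * Real.exp 1 * ((p : ℝ) ^ n / (2 * A.card / ((k : ℝ) - 1))) := by positivity
  have h1 : (p : ℝ) ^ n ≤ (2 * (4 * Real.exp 1 * ((p : ℝ) ^ n / (2 * A.card / ((k : ℝ) - 1))))) ^ D := by
    refine h.trans ?_
    rw [mul_pow 2]
    apply mul_le_mul_of_nonneg_right _ (by positivity)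
    calc (2 : ℝ) = 2 ^ 1 := by norm_num
      _ ≤ 2 ^ D := pow_le_pow_right₀ (by norm_num) hD1
  have h2 : (p : ℝ) ^ (1 / (D : ℝ) * n) ≤
      2 * (4 * Real.exp 1 * ((p : ℝ) ^ n / (2 * A.card / ((k : ℝ) - 1)))) := by
    have h3 := Real.rpow_le_rpow (by positivity) h1 (show 0 ≤ 1 / (D : ℝ) by positivity)
    rw [← Real.rpow_natCast (2 * (4 * Real.exp 1 * ((p : ℝ) ^ n / (2 * A.card / ((k : ℝ) - 1))))) D,
      ← Real.rpow_mul (by positivity), mul_one_div_cancel hD'.ne', Real.rpow_one] at h3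
    have e3 : ((p : ℝ) ^ n) ^ (1 / (D : ℝ)) = (p : ℝ) ^ (1 / (D : ℝ) * n) := by
      rw [← Real.rpow_natCast, ← Real.rpow_mul hp0.le, mul_comm (n : ℝ)]
    rw [e3] at h3
    exact h3
  have h4 : (p : ℝ) ^ (1 / (D : ℝ) * n) * A.card ≤ 11 * ((k : ℝ) - 1) * (p : ℝ) ^ n := by
    have h5 := mul_le_mul_of_nonneg_right h2 hAc.le
    have e : 2 * (4 * Real.exp 1 * ((p : ℝ) ^ n / (2 * A.card / ((k : ℝ) - 1)))) * A.card =
        4 * Real.exp 1 * (((k : ℝ) - 1) * (p : ℝ) ^ n) := by
      have : (k : ℝ) - 1 ≠ 0 := by linarith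
      field_simp
    rw [e] at h5
    have h6 := Real.exp_one_lt_d9
    have h7 : 0 ≤ ((k : ℝ) - 1) * (p : ℝ) ^ n := by positivity
    nlinarith
  have h6 : (p : ℝ) ^ ((1 - 1 / (D : ℝ)) * n) = (p : ℝ) ^ n / (p : ℝ) ^ (1 / (D : ℝ) * n) := by
    rw [sub_mul, one_mul, Real.rpow_sub hp0, Real.rpow_natCast]
  rw [h6, ← mul_div_assoc, le_div_iff₀ (by positivity), mul_comm]
  exact h4

lemma r_eq (n : ℕ) : r k p n = ThreeTerm.r k p n := rfl

lemma r_pow_le (hk : 2 ≤ k) (m : ℕ) : ∀ j : ℕ, ThreeTerm.r k p m ^ j ≤ ThreeTerm.r k p (j * m) := by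
  intro j
  induction j with
  | zero =>
    rw [pow_zero, zero_mul]
    exact ThreeTerm.one_le_r 0 hk
  | succ j ih =>
    rw [pow_succ]
    refine (Nat.mul_le_mul_right _ ih).trans ?_
    have := ThreeTerm.r_mul_le (k := k) (p := p) (j * m) m (by omega)
    rwa [show j * m + m = (j + 1) * m by ring] at this

lemma lim_ge (hk : 2 ≤ k) {L : ℝ}
    (hL : Tendsto (fun n : ℕ => (r k p n : ℝ) ^ (1 / (n : ℝ))) atTop (𝓝 L)) (m : ℕ) (hm : 1 ≤ m) :
    (r k p m : ℝ) ^ (1 / (m : ℝ)) ≤ L := by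
  have hsub : Tendsto (fun j : ℕ => (j + 1) * m) atTop atTop := by
    apply tendsto_atTop_mono (f := fun j : ℕ => j) _ tendsto_id
    intro j
    show j ≤ (j + 1) * m
    nlinarith
  refine ge_of_tendsto (hL.comp hsub) (Eventually.of_forall fun j => ?_)
  show _ ≤ (r k p ((j + 1) * m) : ℝ) ^ (1 / (((j + 1) * m : ℕ) : ℝ))
  have h1 : (r k p m : ℝ) ^ (j + 1) ≤ (r k p ((j + 1) * m) : ℝ) := by
    exact_mod_cast r_pow_le hk m (j + 1)
  have hm' : (0 : ℝ) < m := by exact_mod_cast hm
  have h2 : (r k p m : ℝ) ^ (1 / (m : ℝ)) = ((r k p m : ℝ) ^ (j + 1)) ^ (1 / (((j + 1) * m : ℕ) : ℝ)) := by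
    rw [← Real.rpow_natCast, ← Real.rpow_mul (Nat.cast_nonneg _)]
    congr 1
    push_cast
    field_simp
  rw [h2]
  exact Real.rpow_le_rpow (by positivity) h1 (by positivity)

/-- extremal sets have large dimension -/
lemma extremal (hk : 3 ≤ k) {L : ℝ}
    (hL : Tendsto (fun n : ℕ => (r k p n : ℝ) ^ (1 / (n : ℝ))) atTop (𝓝 L)) {D : ℕ} (hD1 : 1 ≤ D)
    (hDL : (p : ℝ) ^ (1 - 1 / (D : ℝ)) < L) :
    ∃ n₀ : ℕ, ∀ n : ℕ, n₀ ≤ n → ∀ A : Finset (Fin n → ZMod p), APFree k p n A →
      A.card = r k p n → ∃ Z : Finset (Fin n → ZMod p), Shattered A Z ∧ D < Z.card := by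
  have hp0 : (0 : ℝ) < p := by exact_mod_cast hpf.out.pos
  set α : ℝ := (p : ℝ) ^ (1 - 1 / (D : ℝ)) with hα
  have hα0 : 0 < α := by positivity
  obtain ⟨β, hβ1, hβ2⟩ := exists_between hDL
  have hβ0 : 0 < β := hα0.trans hβ1
  have hk' : (0 : ℝ) < (k : ℝ) - 1 := by
    have : (3 : ℝ) ≤ k := by exact_mod_cast hk
    linarith
  have h1 : ∀ᶠ n : ℕ in atTop, β < (r k p n : ℝ) ^ (1 / (n : ℝ)) := hL.eventually (lt_mem_nhds hβ2)
  have h2 : Tendsto (fun n : ℕ => (β / α) ^ n) atTop atTop :=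
    tendsto_pow_atTop_atTop_of_one_lt ((one_lt_div hα0).2 hβ1)
  have h3 : ∀ᶠ n : ℕ in atTop, 11 * ((k : ℝ) - 1) < (β / α) ^ n := h2.eventually_gt_atTop _
  obtain ⟨n₀, hn₀⟩ := eventually_atTop.1 (h1.and (h3.and (eventually_ge_atTop 1)))
  refine ⟨n₀, fun n hn A hA hAc => ?_⟩
  obtain ⟨h4, h5, h6⟩ := hn₀ n hn
  by_contra hcon
  push Not at hcon
  have h7 := bounded hk hD1 hA hcon
  have hn' : (0 : ℝ) < n := by exact_mod_cast h6
  have h8 : β ^ n < r k p n := by
    have h9 := pow_lt_pow_left₀ h4 hβ0.le (by omega : n ≠ 0)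
    rw [← Real.rpow_natCast ((r k p n : ℝ) ^ (1 / (n : ℝ))) n, ← Real.rpow_mul (Nat.cast_nonneg _),
      one_div_mul_cancel hn'.ne', Real.rpow_one] at h9
    exact h9
  have h10 : (p : ℝ) ^ ((1 - 1 / (D : ℝ)) * n) = α ^ n := by
    rw [Real.rpow_mul hp0.le, Real.rpow_natCast]
  rw [h10, hAc] at h7
  rw [div_pow, lt_div_iff₀ (by positivity)] at h5
  linarith

/-- **Theorem.** Let `p` be a prime and `3 ≤ k ≤ p`.
(1) Let `A ⊆ F_p^n` have no nontrivial `k`-term progression. If all the sets which are shattered by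
the translates of `A` have at most `D ≥ 1` elements then `|A| ≤ 11 (k - 1) p ^ ((1 - 1 / D) n)`.
(2) This is sharp up to a factor which depends only on `k` and `p` if `D ≤ 3`: for every `n` there is
such a set with at least `p ^ ((1 - 1 / D) n - D)` elements.
(3) Let `L` be the limit of `r_k(F_p^n) ^ (1 / n)`. If `p ^ (1 - 1 / D) < L` then, for all large `n`,
the translates of every extremal set shatter a set with more than `D` elements.
(4) For all large `n` the translates of every extremal set shatter a set with at least `k (k - 1) / 2`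
and at least `1.7 log p` elements. -/
theorem result (p k : ℕ) [Fact p.Prime] (hk : 3 ≤ k) (hkp : k ≤ p) :
    (∀ (n D : ℕ) (A : Finset (Fin n → ZMod p)), 1 ≤ D → APFree k p n A →
      (∀ Z : Finset (Fin n → ZMod p), Shattered A Z → Z.card ≤ D) →
      (A.card : ℝ) ≤ 11 * ((k : ℝ) - 1) * (p : ℝ) ^ ((1 - 1 / (D : ℝ)) * n)) ∧
    (∀ n D : ℕ, 1 ≤ D → D ≤ 3 → ∃ A : Finset (Fin n → ZMod p), APFree k p n A ∧
      (∀ Z : Finset (Fin n → ZMod p), Shattered A Z → Z.card ≤ D) ∧
      (p : ℝ) ^ ((1 - 1 / (D : ℝ)) * n - D) ≤ A.card) ∧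
    (∃ L : ℝ, Tendsto (fun n : ℕ => (r k p n : ℝ) ^ (1 / (n : ℝ))) atTop (𝓝 L) ∧
      ∀ D : ℕ, 1 ≤ D → (p : ℝ) ^ (1 - 1 / (D : ℝ)) < L →
      ∃ n₀ : ℕ, ∀ n : ℕ, n₀ ≤ n → ∀ A : Finset (Fin n → ZMod p), APFree k p n A →
        A.card = r k p n → ∃ Z : Finset (Fin n → ZMod p), Shattered A Z ∧ D < Z.card) ∧
    (∃ n₀ : ℕ, ∀ n : ℕ, n₀ ≤ n → ∀ A : Finset (Fin n → ZMod p), APFree k p n A →
      A.card = r k p n → ∃ Z : Finset (Fin n → ZMod p), Shattered A Z ∧
        k * (k - 1) / 2 ≤ Z.card ∧ 1.7 * Real.log p ≤ Z.card) := by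
  have hpp : p.Prime := Fact.out
  have hp3 : 3 ≤ p := hk.trans hkp
  have hpR : (1 : ℝ) < p := by exact_mod_cast hpp.one_lt
  have hp0 : (0 : ℝ) < p := by linarith
  obtain ⟨L, hL, hL56, -⟩ := ThreeTerm.result k p hk hkp
  have hL' : Tendsto (fun n : ℕ => (r k p n : ℝ) ^ (1 / (n : ℝ))) atTop (𝓝 L) := hL
  refine ⟨fun n D A h1 h2 h3 => bounded hk h1 h2 h3, ?_,
    ⟨L, hL', fun D h1 h2 => extremal hk hL' h1 h2⟩, ?_⟩
  · intro n D hD1 hD3
    obtain ⟨m, rfl⟩ : ∃ m, D = m + 1 := ⟨D - 1, by omega⟩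
    obtain ⟨A, hA1, hA2, hA3⟩ := exists_quad p (by omega) m n (by omega)
    refine ⟨A, ?_, ?_, ?_⟩
    · intro x y h
      apply hA1 x y
      · simpa using h 0 (by omega)
      · simpa using h 1 (by omega)
      · exact h 2 (by omega)
    · intro Z hZ
      apply hA2
      · obtain ⟨t, ht⟩ := hZ Z (Subset.refl Z)
        exact ⟨t, fun x hx => (ht x hx).1 hx⟩
      · intro z _
        exact hZ _ (erase_subset _ _)
    · have h1 : ((p ^ (m * (n / (m + 1))) : ℕ) : ℝ) ≤ A.card := by exact_mod_cast hA3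
      refine le_trans ?_ h1
      push_cast
      rw [← Real.rpow_natCast]
      apply Real.rpow_le_rpow_of_exponent_le hpR.le
      have h2 := Nat.div_add_mod n (m + 1)
      have h3 := Nat.mod_lt n (by omega : 0 < m + 1)
      have h4 : n + 1 ≤ (m + 1) * (n / (m + 1)) + (m + 1) := by omega
      set q := n / (m + 1)
      have h5 : (n : ℝ) + 1 ≤ (m + 1) * q + (m + 1) := by exact_mod_cast h4
      have hm0 : (0 : ℝ) < (m : ℝ) + 1 := by positivity
      push_cast
      have h6 : (1 - 1 / ((m : ℝ) + 1)) * n = m * n / (m + 1) := by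
        field_simp
        ring
      rw [h6]
      have h7 : (m : ℝ) * n / (m + 1) ≤ m * q + m := by
        rw [div_le_iff₀ hm0]
        have hm' : (0 : ℝ) ≤ m := Nat.cast_nonneg _
        nlinarith
      linarith
  · -- `k (k - 1) / 2`
    have hLpos : 0 < L := by
      have : (0 : ℝ) < 0.56 * (p : ℝ) := by positivity
      linarith
    have hnorm : (p : ℝ) ^ (1 - 2 / ((k : ℝ) * ((k : ℝ) - 1))) ≤ L := by
      refine (NormFormBound.result p k (by omega) hkp).trans ?_
      unfold NormFormBound.lam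
      apply ciSup_le
      intro n
      have := lim_ge (k := k) (by omega) hL' (n + 1) (by omega)
      push_cast at this
      exact this
    have hkk : 6 ≤ k * (k - 1) := by
      have : 3 * 2 ≤ k * (k - 1) := Nat.mul_le_mul hk (by omega)
      omega
    have heven : 2 ∣ k * (k - 1) := by
      have := Nat.even_mul_pred_self k
      exact this.two_dvd
    obtain ⟨c, hc⟩ := heven
    have hc3 : 3 ≤ c := by omega
    have hcR : (k : ℝ) * ((k : ℝ) - 1) = 2 * c := by
      have : ((k * (k - 1) : ℕ) : ℝ) = ((2 * c : ℕ) : ℝ) := by rw [hc]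
      rw [Nat.cast_mul, Nat.cast_sub (by omega)] at this
      push_cast at this
      linarith
    rw [hcR] at hnorm
    have hD0 : (p : ℝ) ^ (1 - 1 / ((c - 1 : ℕ) : ℝ)) < L := by
      refine lt_of_lt_of_le ?_ hnorm
      apply Real.rpow_lt_rpow_of_exponent_lt hpR
      rw [Nat.cast_sub (by omega)]
      push_cast
      have hc' : (3 : ℝ) ≤ c := by exact_mod_cast hc3
      have e : 2 / (2 * (c : ℝ)) = 1 / c := by
        field_simp
      rw [e]
      have : 1 / (c : ℝ) < 1 / ((c : ℝ) - 1) :=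
        one_div_lt_one_div_of_lt (by linarith) (by linarith)
      linarith
    -- `1.7 log p`
    have hlog : 1 < 1.7 * Real.log p := by
      have h1 : Real.log 3 ≤ Real.log p := Real.log_le_log (by norm_num) (by exact_mod_cast hp3)
      have h2 : (1 : ℝ) < Real.log 3 := by
        rw [Real.lt_log_iff_exp_lt (by norm_num)]
        have := Real.exp_one_lt_d9
        linarith
      linarith
    set e := ⌈1.7 * Real.log p⌉₊ with he
    have he2 : 2 ≤ e := by
      have : 1 < e := Nat.lt_ceil.2 (by exact_mod_cast hlog)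
      omega
    have heD : ((e - 1 : ℕ) : ℝ) < 1.7 * Real.log p := by
      have := Nat.ceil_lt_add_one (show 0 ≤ 1.7 * Real.log p by linarith)
      rw [← he] at this
      rw [Nat.cast_sub (by omega)]
      push_cast
      linarith
    have hD1 : (p : ℝ) ^ (1 - 1 / ((e - 1 : ℕ) : ℝ)) < L := by
      refine lt_of_lt_of_le ?_ hL56
      have he1 : (0 : ℝ) < ((e - 1 : ℕ) : ℝ) := by exact_mod_cast (by omega : 0 < e - 1)
      rw [Real.rpow_sub hp0, Real.rpow_one, div_lt_iff₀ (by positivity)]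
      have h1 : (1 : ℝ) < 0.56 * (p : ℝ) ^ (1 / ((e - 1 : ℕ) : ℝ)) := by
        have h2 : Real.exp (1 / 1.7) < (p : ℝ) ^ (1 / ((e - 1 : ℕ) : ℝ)) := by
          rw [Real.rpow_def_of_pos hp0]
          apply Real.exp_lt_exp.2
          rw [mul_one_div, lt_div_iff₀ he1, div_mul_eq_mul_div, one_mul, div_lt_iff₀ (by norm_num)]
          linarith
        have h3 : (1 : ℝ) / 0.56 < Real.exp (1 / 1.7) := by
          have h4 := Real.quadratic_le_exp_of_nonneg (show (0 : ℝ) ≤ 1 / 1.7 by norm_num)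
          have h5 := Real.sum_le_exp_of_nonneg (show (0 : ℝ) ≤ 1 / 1.7 by norm_num) 5
          refine lt_of_lt_of_le ?_ h5
          simp [Finset.sum_range_succ, Nat.factorial]
          norm_num
        have h6 := h3.trans h2
        rw [div_lt_iff₀ (by norm_num)] at h6
        linarith
      calc (p : ℝ) = p * 1 := by ring
        _ < p * (0.56 * (p : ℝ) ^ (1 / ((e - 1 : ℕ) : ℝ))) := by
          apply mul_lt_mul_of_pos_left h1 hp0
        _ = _ := by ring
    obtain ⟨n₁, h1⟩ := extremal hk hL' (by omega) hD0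
    obtain ⟨n₂, h2⟩ := extremal hk hL' (by omega) hD1
    refine ⟨max n₁ n₂, fun n hn A hA hAc => ?_⟩
    obtain ⟨Z1, hZ1, hZ1c⟩ := h1 n ((le_max_left _ _).trans hn) A hA hAc
    obtain ⟨Z2, hZ2, hZ2c⟩ := h2 n ((le_max_right _ _).trans hn) A hA hAc
    have hhalf : k * (k - 1) / 2 = c := by rw [hc]; omega
    rw [hhalf]
    have hle : 1.7 * Real.log p ≤ (e : ℝ) := Nat.le_ceil _
    rcases le_total Z1.card Z2.card with h | h
    · refine ⟨Z2, hZ2, by omega, hle.trans ?_⟩
      exact_mod_cast (by omega : e ≤ Z2.card)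
    · refine ⟨Z1, hZ1, by omega, hle.trans ?_⟩
      exact_mod_cast (by omega : e ≤ Z1.card)

end Pool.Agent.Results.MP_b30443_co.VCDimension
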